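import Pool.Agent.J4H74.BRW.Ex

/-!
# An irreducible branching random walk with countably many extinction probability vectors

`pop x ω n` is generation `n` of the process started from one particle at `x`, `law μ` the law of
the independent offspring vectors (starting library `Pool.Agent.H632R3.BranchGen`);
`qExt μ A x = P^x (no particle in A at all large times)`, `extSet μ = {qExt μ A : A ⊆ X}`,
`fixSet μ` (fixed points of the generating function in `[0,1]^X`) and `Irr μ` (irreducible) are in
the starting library `Pool.Agent.R957.BRW.Defs`.

The example (`Pool.Agent.J4H74.BRW.Ex`): the points are the pairs `(i, k)` of natural numbers; a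
particle at `(i, k)` has a child at `(i, k + 1)`, a child at `(i + k + 1, 0)` and, with probability
`4 ^ (-(i + k)) / 4`, a third child at `(0, 0)`.
-/

set_option autoImplicit false

namespace Pool.Agent.Results.MP_2fa7ec_pr.CountablyManyExtinctionVectors

open Pool.Agent.R957.BRW

/-- There is an irreducible branching random walk on `ℕ × ℕ`, in which every particle has two or
three children, whose set of extinction probability vectors is countably infinite (and whose set of
fixed points of the generating function has the cardinality of the continuum). -/
theorem result : ∃ μ : ℕ × ℕ → PMF (ℕ × ℕ →₀ ℕ),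
    Irr μ ∧
    (∀ x f, μ x f ≠ 0 → (f.sum fun _ k => k) = 2 ∨ (f.sum fun _ k => k) = 3) ∧
    Cardinal.mk (extSet μ) = Cardinal.aleph0 ∧
    Cardinal.mk (fixSet μ) = Cardinal.continuum := by
  refine ⟨Pool.Agent.J4H74.BRW.exLaw, Pool.Agent.J4H74.BRW.irr,
    Pool.Agent.J4H74.BRW.total_children, ?_, ?_⟩
  · have h1 := Pool.Agent.J4H74.BRW.extSet_countable
    have h2 := Pool.Agent.J4H74.BRW.extSet_infinite
    have h3 := h1.to_subtype
    have h4 := h2.to_subtype
    exact Cardinal.mk_eq_aleph0 _
  · rcases irr_dichotomy Pool.Agent.J4H74.BRW.exLaw Pool.Agent.J4H74.BRW.irr with h | h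
    · exfalso
      refine Pool.Agent.J4H74.BRW.extSet_infinite ?_
      refine Set.Finite.subset ?_ (extSet_subset _)
      rw [h]
      exact (Set.finite_singleton _).insert _
    · exact h

end Pool.Agent.Results.MP_2fa7ec_pr.CountablyManyExtinctionVectors
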